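import Pool.Agent.H41.CZ.Defs
import Pool.Agent.H59.SE.AC

/-!
# Module KB of cz_modules: if the kernel is empty then `X` injects into `ω`
-/

set_option autoImplicit false
set_option linter.unusedVariables false

open Ordinal Order Set
open scoped ZFSet

namespace CZ.H50

open SF _root_.UZ

theorem dk_iff (X W : V) (d : V → V → ℝ) (α : Ordinal.{0}) (k n : ℕ) :
    Dk X W d α k n ↔ Nd W d k n ∧ ∀ β < α, ∃ n' n'', Dk X W d β (k + 1) n' ∧
      Dk X W d β (k + 1) n'' ∧ Ins X W d n' n ∧ Ins X W d n'' n ∧ Spd W d n' n'' := by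
  rw [Dk]
  constructor
  · rintro ⟨h1, h2⟩
    exact ⟨h1, fun β hβ => h2 ⟨β, hβ⟩⟩
  · rintro ⟨h1, h2⟩
    exact ⟨h1, fun β => h2 β.1 β.2⟩

theorem mem_Ds {X W : V} {d : V → V → ℝ} {α : Ordinal.{0}} {k n : ℕ} :
    ZFSet.pair (nS k) (nS n) ∈ Ds X W d α ↔ Dk X W d α k n := by
  unfold Ds
  rw [ZFSet.mem_sep]
  constructor
  · rintro ⟨-, k', n', h, h'⟩
    obtain ⟨h1, h2⟩ := ZFSet.pair_inj.1 h
    rw [nS_inj] at h1 h2
    rw [h1, h2]
    exact h'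
  · intro h
    exact ⟨ZFSet.pair_mem_prod.2 ⟨mem_om.2 ⟨k, rfl⟩, mem_om.2 ⟨n, rfl⟩⟩, k, n, rfl, h⟩

theorem exists_of_mem_Ds {X W : V} {d : V → V → ℝ} {α : Ordinal.{0}} {z : V}
    (h : z ∈ Ds X W d α) : ∃ k n : ℕ, z = ZFSet.pair (nS k) (nS n) ∧ Dk X W d α k n :=
  (ZFSet.mem_sep.1 h).2

theorem dk_zero {X W : V} {d : V → V → ℝ} {k n : ℕ} : Dk X W d 0 k n ↔ Nd W d k n := by
  rw [dk_iff]
  exact ⟨fun h => h.1, fun h => ⟨h, fun β hβ => absurd hβ (not_lt_bot)⟩⟩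

theorem dk_anti {X W : V} {d : V → V → ℝ} {α β : Ordinal.{0}} {k n : ℕ} (hβ : β ≤ α)
    (h : Dk X W d α k n) : Dk X W d β k n := by
  rw [dk_iff] at h ⊢
  exact ⟨h.1, fun γ hγ => h.2 γ (lt_of_lt_of_le hγ hβ)⟩

/-- the node `v` has the smallest rank among the nodes containing `x` -/
def J (M : V → Prop) (X W : V) (d : V → V → ℝ) (x v : V) : Prop :=
  v ∈ Ds X W d 0 ∧ x ∈ SF.app W (SF.snd v) ∧ ∀ v2 ∈ Ds X W d 0, x ∈ SF.app W (SF.snd v2) →
    ∀ a, M a → v2 ∉ Ds X W d a.rank → v ∉ Ds X W d a.rank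

theorem dn_J {M : V → Prop} (hM : ZFm M) {X W : V} {d : V → V → ℝ} (hW : M W)
    (hKD : TN M (fun u => Ds X W d (u 0).rank)) : DN M (fun u => J M X W d (u 0) (u 1)) := by
  have hD0 : M (Ds X W d 0) := by
    have h := TN.mem hM hKD (u := fun _ => om) (fun _ => hM.inf)
    have h2 := TN.mem hM hKD (u := fun _ => (∅ : V)) (fun _ => TN.mem hM (TN.empty hM)
      (u := fun _ => om) (fun _ => hM.inf))
    simpa using h2
  have h1 : DN M (fun u => u 1 ∈ Ds X W d 0) := DN.mem hM (TN.var hM 1) (TN.cst hD0)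
  have h2 : DN M (fun u => u 0 ∈ SF.app W (SF.snd (u 1))) :=
    DN.mem hM (TN.var hM 0) (TN.app hM (TN.cst hW) (TN.snd hM (TN.var hM 1)))
  have hin : DN M (fun u => u 1 ∉ Ds X W d (u 0).rank → u 3 ∉ Ds X W d (u 0).rank) :=
    DN.imp hM (DN.not (DN.mem hM (TN.var hM 1) hKD)) (DN.not (DN.mem hM (TN.var hM 3) hKD))
  have h3 : DN M (fun u => ∀ a, M a → (u 0 ∉ Ds X W d a.rank → u 2 ∉ Ds X W d a.rank)) :=
    (DN.all hin).congr fun u hu => Iff.rfl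
  have h4 : DN M (fun u => u 1 ∈ SF.app W (SF.snd (u 0))) :=
    DN.mem hM (TN.var hM 1) (TN.app hM (TN.cst hW) (TN.snd hM (TN.var hM 0)))
  have h5 : DN M (fun u => ∀ v2 ∈ Ds X W d 0, u 0 ∈ SF.app W (SF.snd v2) → ∀ a, M a →
      v2 ∉ Ds X W d a.rank → u 1 ∉ Ds X W d a.rank) :=
    (DN.ball hM (TN.cst hD0) (DN.imp hM h4 h3)).congr fun u hu => Iff.rfl
  exact DN.and hM h1 (DN.and hM h2 h5)

theorem dist_nonneg' {M : V → Prop} {X : V} {d : V → V → ℝ} (h : MetricIn M X d) {x y : V}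
    (hx : x ∈ X) (hy : y ∈ X) : 0 ≤ d x y := by
  have h1 := h.tri x hx y hy x hx
  rw [h.self x hx, h.symm y hy x hx] at h1
  linarith

theorem J_uniq {M : V → Prop} (hZ : ZF M) {X W : V} {d : V → V → ℝ} (hd : MetricIn M X d)
    (hF : Fam M X W d)
    (hker : ¬ ∃ k n : ℕ, ∀ α : Ordinal.{0}, M α.toZFSet → Dk X W d α k n)
    (hbase : ∀ x ∈ X, ∀ k, ∃ n, Nd W d k n ∧ x ∈ SF.app W (nS n)) {x y v : V}
    (hJx : J M X W d x v) (hJy : J M X W d y v) : x = y := by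
  by_contra hxy
  obtain ⟨hv, hxv, hx2⟩ := hJx
  obtain ⟨-, hyv, hy2⟩ := hJy
  obtain ⟨k, n, rfl, hk0⟩ := exists_of_mem_Ds hv
  rw [SF.snd_pair] at hxv hyv
  have hxX : x ∈ X := (hF.o n).1 hxv
  have hyX : y ∈ X := (hF.o n).1 hyv
  obtain ⟨ε, hε, hε2⟩ := (hF.o n).2 x hxv
  obtain ⟨ε', hε', hε2'⟩ := (hF.o n).2 y hyv
  have hpos : 0 < d x y :=
    lt_of_le_of_ne (dist_nonneg' hd hxX hyX) fun h => hxy (hd.eq x hxX y hyX h.symm)
  obtain ⟨K, hK⟩ := exists_nat_gt (max (max (2 / ε) (2 / ε')) (max (3 / d x y) (k + 2)))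
  have hK1 : 2 / ε < K := lt_of_le_of_lt ((le_max_left _ _).trans (le_max_left _ _)) hK
  have hK2 : 2 / ε' < K := lt_of_le_of_lt ((le_max_right _ _).trans (le_max_left _ _)) hK
  have hK3 : 3 / d x y < K := lt_of_le_of_lt ((le_max_left _ _).trans (le_max_right _ _)) hK
  have hK4 : (k : ℝ) + 2 < K := lt_of_le_of_lt ((le_max_right _ _).trans (le_max_right _ _)) hK
  rw [div_lt_iff₀ hε] at hK1
  rw [div_lt_iff₀ hε'] at hK2
  rw [div_lt_iff₀ hpos] at hK3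
  obtain ⟨n2, hn2, hxn2⟩ := hbase x hxX K
  obtain ⟨n3, hn3, hyn3⟩ := hbase y hyX K
  have hKpos : (0 : ℝ) < (K : ℝ) + 1 := by positivity
  -- the small sets
  have hsub : ∀ m, ∀ a ∈ SF.app W (nS m), a ∈ X := fun m a ha => (hF.o m).1 ha
  have hNd : ∀ m, Nd W d K m → Nd W d (k + 1) m := by
    intro m hm
    refine ⟨hm.1, fun a ha b hb => ?_⟩
    have h1 := hm.2 a ha b hb
    have h2 := dist_nonneg' hd (hsub m a ha) (hsub m b hb)
    push_cast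
    nlinarith
  have hIns : ∀ m (z : V) (η : ℝ), Nd W d K m → z ∈ SF.app W (nS m) → 2 < K * η → 0 < η →
      (∀ b ∈ X, d z b < η → b ∈ SF.app W (nS n)) → Ins X W d m n := by
    intro m z η hm hz hKη hη hzη
    refine ⟨K, fun a ha b hb hab => ?_⟩
    refine hzη b hb ?_
    have h1 := hm.2 z hz a ha
    have h2 := hd.tri z (hsub m z hz) a (hsub m a ha) b hb
    have h3 : (K + 1) * d z b < (K + 1) * η := by nlinarith
    exact lt_of_mul_lt_mul_left h3 hKpos.le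
  have hI2 := hIns n2 x ε hn2 hxn2 hK1 hε hε2
  have hI3 := hIns n3 y ε' hn3 hyn3 hK2 hε' hε2'
  have hSpd : Spd W d n2 n3 := by
    refine ⟨K, fun a ha b hb => ?_⟩
    have haX := hsub n2 a ha
    have hbX := hsub n3 b hb
    have h1 := hn2.2 x hxn2 a ha
    have h2 := hn3.2 b hb y hyn3
    have h3 := hd.tri x hxX a haX y hyX
    have h4 := hd.tri a haX b hbX y hyX
    nlinarith
  -- the ranks
  have hex : ∃ α : Ordinal.{0}, M α.toZFSet ∧ ¬ Dk X W d α k n := by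
    by_contra hcon
    exact hker ⟨k, n, fun α hα => by_contra fun h => hcon ⟨α, hα, h⟩⟩
  let S : Set Ordinal.{0} := {α | M α.toZFSet ∧ ¬ Dk X W d α k n}
  have hS : S.Nonempty := hex
  obtain ⟨α, hαS, hmin⟩ := WellFounded.has_min (wellFounded_lt (α := Ordinal.{0})) S hS
  apply hαS.2
  rw [dk_iff]
  refine ⟨dk_zero.1 hk0, fun β hβ => ?_⟩
  have hβM : M β.toZFSet := hZ.trans _ hαS.1 _ (UZ.toZFSet_mem.2 hβ)
  have hβD : Dk X W d β k n := by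
    by_contra h
    exact hmin β ⟨hβM, h⟩ hβ
  have hget : ∀ (z : V) (m : ℕ), (∀ v2 ∈ Ds X W d 0, z ∈ SF.app W (SF.snd v2) → ∀ a, M a →
      v2 ∉ Ds X W d a.rank → ZFSet.pair (nS k) (nS n) ∉ Ds X W d a.rank) →
      Nd W d K m → z ∈ SF.app W (nS m) → Dk X W d β (k + 1) m := by
    intro z m hz hm hzm
    have h1 := hz (ZFSet.pair (nS (k + 1)) (nS m)) (mem_Ds.2 (dk_zero.2 (hNd m hm)))
      (by rw [SF.snd_pair]; exact hzm) β.toZFSet hβM
    rw [Ordinal.rank_toZFSet, mem_Ds, mem_Ds] at h1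
    by_contra h2
    exact h1 h2 hβD
  exact ⟨n2, n3, hget x n2 hx2 hn2 hxn2, hget y n3 hy2 hn3 hyn3, hI2, hI3, hSpd⟩

theorem J_exists {M : V → Prop} (hZ : ZF M) {X W : V} {d : V → V → ℝ}
    (hker : ¬ ∃ k n : ℕ, ∀ α : Ordinal.{0}, M α.toZFSet → Dk X W d α k n)
    (hbase : ∀ x ∈ X, ∀ k, ∃ n, Nd W d k n ∧ x ∈ SF.app W (nS n)) {x : V} (hx : x ∈ X) :
    ∃ v, J M X W d x v := by
  let S : Set Ordinal.{0} := {α | M α.toZFSet ∧ ∃ k n : ℕ, Nd W d k n ∧ x ∈ SF.app W (nS n) ∧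
    ¬ Dk X W d α k n}
  have hS : S.Nonempty := by
    obtain ⟨n, hn, hxn⟩ := hbase x hx 0
    by_contra hcon
    apply hker
    refine ⟨0, n, fun α hα => ?_⟩
    by_contra h
    exact hcon ⟨α, hα, 0, n, hn, hxn, h⟩
  obtain ⟨α, ⟨hαM, k, n, hnd, hxn, hD⟩, hmin⟩ :=
    WellFounded.has_min (wellFounded_lt (α := Ordinal.{0})) S hS
  refine ⟨ZFSet.pair (nS k) (nS n), mem_Ds.2 (dk_zero.2 hnd), by rw [SF.snd_pair]; exact hxn, ?_⟩
  intro v2 hv2 hxv2 a ha hv2a hva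
  obtain ⟨k2, n2, rfl, hk2⟩ := exists_of_mem_Ds hv2
  rw [SF.snd_pair] at hxv2
  rw [mem_Ds] at hv2a hva
  have h1 : M a.rank.toZFSet :=
    TN.mem hZ.toZFm (TN.rkS hZ.toZFm (TN.var hZ.toZFm 0)) (u := fun _ => a) (fun _ => ha)
  have h2 : α ≤ a.rank := by
    by_contra hlt
    exact hmin a.rank ⟨h1, k2, n2, dk_zero.1 hk2, hxv2, hv2a⟩ (not_le.1 hlt)
  exact hD (dk_anti h2 hva)

theorem ctbl_om {M : V → Prop} (hM : ZFm M) : Ctbl M om := by
  refine Or.inr ⟨SF.resS om fun x => x, ?_, isFunc_resS om om _ (fun x hx => hx), ?_⟩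
  · exact TN.mem hM (TN.resS hM (TN.om hM) (TN.var hM 0)) (u := fun _ => om) (fun _ => hM.inf)
  · intro b hb
    exact ⟨b, hb, pair_mem_resS.2 ⟨hb, rfl⟩⟩

theorem pf_KB : T_KD → T_KB := by
  intro hKDall M X W R d hZ hd hR hF hker hbase
  have hM : ZFm M := hZ.toZFm
  have hKD := hKDall M X W R d hZ hd hR hF
  have hJ := dn_J hM hF.n hKD
  -- the enumeration
  obtain ⟨e, he, heo⟩ : ∃ e, M e ∧ Onto e om (ZFSet.prod om om) := by
    rcases (SE.pf_AC M hM).2.2.1 om om (ctbl_om hM) (ctbl_om hM) with h | h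
    · exfalso
      have : ZFSet.pair (nS 0) (nS 0) ∈ ZFSet.prod om om :=
        ZFSet.pair_mem_prod.2 ⟨mem_om.2 ⟨0, rfl⟩, mem_om.2 ⟨0, rfl⟩⟩
      rw [h] at this
      exact ZFSet.notMem_empty _ this
    · exact h
  have hJe : DN M (fun u => J M X W d (u 0) (SF.app e (u 1))) :=
    DN.at2 hM hJ (TN.var hM 0) (TN.app hM (TN.cst he) (TN.var hM 1))
  have hJ1 : DN M (fun u => J M X W d (SF.fst (u 0)) (SF.app e (SF.snd (u 0)))) :=
    DN.at2 hM hJ (TN.fst hM (TN.var hM 0)) (TN.app hM (TN.cst he) (TN.snd hM (TN.var hM 0)))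
  have hJ2 : DN M (fun u => J M X W d (SF.fst (u 1)) (SF.app e (u 0))) :=
    DN.at2 hM hJ (TN.fst hM (TN.var hM 1)) (TN.app hM (TN.cst he) (TN.var hM 0))
  have hJ3 : DN M (fun u => ∀ m ∈ SF.snd (u 0), ¬ J M X W d (SF.fst (u 0)) (SF.app e m)) :=
    (DN.ball hM (TN.snd hM (TN.var hM 0)) hJ2.not).congr fun u hu => Iff.rfl
  have hJ4 := DN.and hM hJ1 hJ3
  have hXo : M (ZFSet.prod X om) :=
    TN.mem hM (TN.prod hM (TN.cst hd.mem) (TN.om hM)) (u := fun _ => om) (fun _ => hM.inf)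
  have hfM := DN.sepN hM hJ4 hXo (u := fun _ => om) (fun _ => hM.inf)
  refine ⟨_, hfM, ⟨?_, ?_⟩, ?_⟩
  · intro z hz
    exact (ZFSet.mem_sep.1 hz).1
  · intro x hx
    obtain ⟨v, hv⟩ := J_exists hZ hker hbase hx
    have hvp : v ∈ ZFSet.prod om om := (ZFSet.mem_sep.1 hv.1).1
    obtain ⟨m, hm, hmv⟩ := heo.2 v hvp
    have hev : SF.app e m = v := app_eq (svl_of_isFunc heo.1) hmv
    obtain ⟨m, rfl⟩ := mem_om.1 hm
    have hex : ∃ m : ℕ, J M X W d x (SF.app e (nS m)) := ⟨m, by rw [hev]; exact hv⟩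
    classical
    refine ⟨nS (Nat.find hex), ?_, ?_⟩
    · show ZFSet.pair x (nS (Nat.find hex)) ∈ _
      rw [ZFSet.mem_sep]
      refine ⟨ZFSet.pair_mem_prod.2 ⟨hx, mem_om.2 ⟨_, rfl⟩⟩, ?_⟩
      show J M X W d (SF.fst (ZFSet.pair x (nS (Nat.find hex))))
          (SF.app e (SF.snd (ZFSet.pair x (nS (Nat.find hex))))) ∧
        ∀ m ∈ SF.snd (ZFSet.pair x (nS (Nat.find hex))),
          ¬ J M X W d (SF.fst (ZFSet.pair x (nS (Nat.find hex)))) (SF.app e m)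
      rw [SF.fst_pair, SF.snd_pair]
      refine ⟨Nat.find_spec hex, ?_⟩
      intro m' hm'
      have hm'o : m' ∈ om := by
        rw [Ordinal.mem_toZFSet_iff] at hm' ⊢
        obtain ⟨a, ha, rfl⟩ := hm'
        exact ⟨a, ha.trans (Ordinal.natCast_lt_omega0 _), rfl⟩
      obtain ⟨j, rfl⟩ := mem_om.1 hm'o
      exact Nat.find_min hex (nS_mem_nS.1 hm')
    · intro w hw
      have hw' : ZFSet.pair x w ∈ _ := hw
      rw [ZFSet.mem_sep] at hw'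
      obtain ⟨hw1, hw2⟩ := hw'
      have hw3 : J M X W d (SF.fst (ZFSet.pair x w)) (SF.app e (SF.snd (ZFSet.pair x w))) ∧
        ∀ m ∈ SF.snd (ZFSet.pair x w), ¬ J M X W d (SF.fst (ZFSet.pair x w)) (SF.app e m) := hw2
      rw [SF.fst_pair, SF.snd_pair] at hw3
      obtain ⟨j, rfl⟩ := mem_om.1 (ZFSet.pair_mem_prod.1 hw1).2
      rw [nS_inj]
      apply le_antisymm
      · by_contra hlt
        exact hw3.2 (nS (Nat.find hex)) (nS_mem_nS.2 (not_le.1 hlt)) (Nat.find_spec hex)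
      · exact Nat.find_min' hex hw3.1
  · intro s t z hs ht
    have hs2 := (ZFSet.mem_sep.1 hs).2
    have ht2 := (ZFSet.mem_sep.1 ht).2
    have hs3 : J M X W d (SF.fst (ZFSet.pair s z)) (SF.app e (SF.snd (ZFSet.pair s z))) := hs2.1
    have ht3 : J M X W d (SF.fst (ZFSet.pair t z)) (SF.app e (SF.snd (ZFSet.pair t z))) := ht2.1
    rw [SF.fst_pair, SF.snd_pair] at hs3 ht3
    exact J_uniq hZ hd hF hker hbase hs3 ht3

end CZ.H50
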